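import Pool.Agent.Helper37.KDB.Extra
import Pool.Agent.Helper67.KDB.D1

/-! Project KDB, piece D1 (proved). -/

set_option autoImplicit false

namespace KDB

open MeasureTheory
open scoped ENNReal

variable (p : Par)

theorem tau_succ (k : ℕ) : p.tau (k + 1) = p.L * p.tau k := by
  first | exact KDB.I.D1.tau_succ | (apply KDB.I.D1.tau_succ <;> assumption)

theorem W_b (k : ℕ) : p.W (k + p.b) = p.tau (k + 1) := by
  first | exact KDB.I.D1.W_b | (apply KDB.I.D1.W_b <;> assumption)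

theorem W_ell (k : ℕ) : p.W k * p.ell = p.tau k := by
  first | exact KDB.I.D1.W_ell | (apply KDB.I.D1.W_ell <;> assumption)

theorem h_tau (hp : p.Ok) (k : ℕ) : p.h * p.tau k = (p.L : ℝ) ^ k := by
  first | exact KDB.I.D1.h_tau | (apply KDB.I.D1.h_tau <;> assumption)

theorem xi_eq (k : ℕ) : p.xi k = p.rho k * (p.L : ℝ) ^ k := by
  first | exact KDB.I.D1.xi_eq | (apply KDB.I.D1.xi_eq <;> assumption)

theorem hrem_bounds (hp : p.Ok) (k j : ℕ) (hj : p.inA k j) :
    (p.L : ℝ) ^ k * (1 - 1 / p.ell) ≤ p.hrem k j ∧ p.hrem k j ≤ (p.L : ℝ) ^ k := by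
  first | exact KDB.I.D1.hrem_bounds | (apply KDB.I.D1.hrem_bounds <;> assumption)

/-- noise class -/
theorem ncl_spec (x : ℝ) (hx : 0 ≤ x) : x ≤ 2 ^ Par.ncl x ∧ (Par.ncl x : ℝ) ≤ 1 + x := by
  first | exact KDB.I.D1.ncl_spec | (apply KDB.I.D1.ncl_spec <;> assumption)

end KDB
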