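import Pool.Agent.Helper37.KDB.Extra
import Pool.Agent.Helper59.KDB.D2

/-! Project KDB, piece D2 (proved). -/

set_option autoImplicit false

namespace KDB

open MeasureTheory
open scoped ENNReal

variable (p : Par)

/-- size of a jump -/
theorem jump_le (hp : p.Ok) (j : ℕ) (z : Nz p.d) (hz : p.Valid j z) (x v : V p.d) :
    ‖p.jump j z x v‖ ≤ p.sz z := by
  first | exact KDB.I.D2.jump_le | (apply KDB.I.D2.jump_le <;> assumption)

/-- velocity change over the steps `a ≤ j < c` -/
theorem vel_le (hp : p.Ok) (om : ℕ → Nz p.d) (hv : ∀ j, p.Valid j (om j)) (a c : ℕ)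
    (hac : a ≤ c) : ‖(p.run om c).2 - (p.run om a).2‖ ≤ ∑ j ∈ Finset.Ico a c, p.sz (om j) := by
  first | exact KDB.I.D2.vel_le | (apply KDB.I.D2.vel_le <;> assumption)

/-- change of the extrapolated position in one step -/
theorem Pos_succ (om : ℕ → Nz p.d) (g j : ℕ) :
    p.Pos om g (j + 1) = p.Pos om g j - (p.h * ((j : ℝ) + 1 - g)) •
      p.jump j (om j) (p.run om (j + 1)).1 (p.run om j).2 := by
  first | exact KDB.I.D2.Pos_succ | (apply KDB.I.D2.Pos_succ <;> assumption)

/-- unlisted steps move velocity and extrapolated position by at most the noise -/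
theorem noise_le (hp : p.Ok) (om : ℕ → Nz p.d) (hv : ∀ j, p.Valid j (om j)) (m g a c : ℕ)
    (hga : g ≤ a) (hac : a ≤ c) (hcg : c ≤ g + p.tau m)
    (hun : ∀ j ∈ Finset.Ico a c, p.lv (om j) ≤ m) :
    ‖(p.run om c).2 - (p.run om a).2‖ ≤ p.nse om m a c ∧
      ‖p.Pos om g c - p.Pos om g a‖ ≤ p.nse om m a c * (p.L : ℝ) ^ m := by
  first | exact KDB.I.D2.noise_le | (apply KDB.I.D2.noise_le <;> assumption)

end KDB
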