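import Pool.Agent.Helper37.KDB.Extra
import Pool.Agent.Helper28.KDB.D3

/-! Project KDB, piece D3 (proved). -/

namespace KDB

alias winA := KDB.I.D3.winA

alias winB := KDB.I.D3.winB

alias winO := KDB.I.D3.winO

alias same_T := KDB.I.D3.same_T

end KDB
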