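import Pool.Agent.Helper37.KDB.Extra
import Pool.Agent.Helper7.KDB.D4

/-! Project KDB, piece D4 (proved). -/

set_option autoImplicit false

namespace KDB

open MeasureTheory
open scoped ENNReal

variable (p : Par)

/-- a ring of level `i` in the a-window -/
theorem ring_a (hp : p.Ok) (om : ℕ → Nz p.d) (hv : ∀ j, p.Valid j (om j)) (i T j : ℕ)
    (hi : i < p.n) (hT : T % p.tau (i + 1) = p.L / 2 * p.tau i) (hT1 : p.tau i ≤ T)
    (hj : j ∈ Finset.Ico (T - p.tau i) (T - p.tau i + p.W i)) (hlab : (om j).lab = i + 2) :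
    ((om j).sb = true → ∃ B : Fin p.d → ℤ,
      ‖p.Yp om T (j + 1) - p.xi (i + 1) • Par.toV B‖ ≤ p.xi i) ∧
    (∀ D : ℝ, (∃ B : Fin p.d → ℤ, ‖p.Yp om T j - p.xi (i + 1) • Par.toV B‖ ≤ D * p.xi i) →
      ∃ B : Fin p.d → ℤ,
        ‖p.Yp om T (j + 1) - p.xi (i + 1) • Par.toV B‖ ≤ (2 * D + 1) * p.xi i) := by
  first | exact KDB.I.D4.ring_a | (apply KDB.I.D4.ring_a <;> assumption)

end KDB
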