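import Pool.Agent.Helper37.KDB.Extra
import Pool.Agent.Helper7.KDB.P1

/-! Project KDB, piece P1 (proved). -/

set_option autoImplicit false

namespace KDB

open MeasureTheory
open scoped ENNReal

variable (p : Par)

theorem jitLaw_prob (d : ℕ) : IsProbabilityMeasure (jitLaw d) := by
  first | exact KDB.I.P1.jitLaw_prob | (apply KDB.I.P1.jitLaw_prob <;> assumption)

theorem uLaw_prob (d : ℕ) : IsProbabilityMeasure (uLaw d) := by
  first | exact KDB.I.P1.uLaw_prob | (apply KDB.I.P1.uLaw_prob <;> assumption)

theorem sgLaw_prob : IsProbabilityMeasure sgLaw := by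
  first | exact KDB.I.P1.sgLaw_prob | (apply KDB.I.P1.sgLaw_prob <;> assumption)

end KDB
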