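import Pool.Agent.Helper37.KDB.Extra
import Pool.Agent.Helper75.KDB.P2

/-! Project KDB, piece P2 (proved). -/

namespace KDB

alias kd_int := KDB.I.P2.kd_int

alias kap_pos := KDB.I.P2.kap_pos

alias kickLaw_prob := KDB.I.P2.kickLaw_prob

end KDB
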