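import Pool.Agent.Helper37.KDB.Extra
import Pool.Agent.Helper61.KDB.P3

/-! Project KDB, piece P3 (proved). -/

set_option autoImplicit false

namespace KDB

open MeasureTheory
open scoped ENNReal

variable (p : Par)

theorem labLaw_prob (hp : p.Ok) (hH : p.Hok) (j : ℕ) : IsProbabilityMeasure (p.labLaw j) := by
  first | exact KDB.I.P3.labLaw_prob | (apply KDB.I.P3.labLaw_prob <;> assumption)

theorem stepLaw_prob (hp : p.Ok) (hH : p.Hok) (j : ℕ) : IsProbabilityMeasure (p.stepLaw j) := by
  first | exact KDB.I.P3.stepLaw_prob | (apply KDB.I.P3.stepLaw_prob <;> assumption)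

theorem pathLaw_prob (hp : p.Ok) (hH : p.Hok) (N : ℕ) : IsProbabilityMeasure (p.pathLaw N) := by
  first | exact KDB.I.P3.pathLaw_prob | (apply KDB.I.P3.pathLaw_prob <;> assumption)

end KDB
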