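import Pool.Agent.Helper37.KDB.Extra
import Pool.Agent.Helper87.KDB.P9

/-! Project KDB, piece P9 (proved). -/

set_option autoImplicit false

namespace KDB

open MeasureTheory
open scoped ENNReal

variable (p : Par)

theorem mst_spec (hp : p.Ok) (t j : ℕ) (hj : j < t) (ht : t ≤ p.tau p.n) :
    p.mst t j < p.n ∧ t - j ≤ MM * p.tau (p.mst t j + 1) := by
  first | exact KDB.I.P9.mst_spec | (apply KDB.I.P9.mst_spec <;> assumption)

/-- sums over steps are at most sums over levels -/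
theorem sum_mst (hp : p.Ok) (t : ℕ) (ht : t ≤ p.tau p.n) (f : ℕ → ℕ → ℝ)
    (hf : ∀ m j, 0 ≤ f m j) :
    ∑ j ∈ Finset.range t, f (p.mst t j) j ≤
      ∑ m ∈ Finset.range p.n, ∑ j ∈ Finset.Ico (t - MM * p.tau (m + 1)) t, f m j := by
  first | exact KDB.I.P9.sum_mst | (apply KDB.I.P9.sum_mst <;> assumption)

theorem chi_bounds (k j : ℕ) : 0 ≤ p.chi k j ∧ p.chi k j ≤ 1 := by
  first | exact KDB.I.P9.chi_bounds | (apply KDB.I.P9.chi_bounds <;> assumption)

/-- crude mass bound for high levels -/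
theorem ring_crude (hp : p.Ok) (k a c : ℕ) :
    ∑ j ∈ Finset.Ico a c, p.pring k j ≤ p.mu * ((c - a : ℕ) : ℝ) / p.W k := by
  first | exact KDB.I.P9.ring_crude | (apply KDB.I.P9.ring_crude <;> assumption)

end KDB
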