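import Pool.Agent.Helper37.KDB.Extra
import Pool.Agent.Helper7.KDB.P7

/-! Project KDB, piece P7 (proved). -/

set_option autoImplicit false

namespace KDB

open MeasureTheory
open scoped ENNReal

variable (p : Par)

/-- one step: exponential moment of a function of the label and of the kick -/
theorem step_exp (hp : p.Ok) (hH : p.Hok) (j : ℕ) (g1 : V p.d → ℝ) (g2 : ℕ → ℝ)
    (hg1 : Measurable g1) (h0 : ∀ w, 0 ≤ g1 w) (h0' : ∀ k, 0 ≤ g2 k)
    (hi : Integrable fun w => p.kd w * (Real.exp (g1 w) - 1)) :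
    ∫⁻ z : Nz p.d, ENNReal.ofReal (Real.exp (if z.lab = 0 then 0 else if z.lab = 1 then g1 z.w
        else g2 (z.lab - 2))) ∂p.stepLaw j ≤
      ENNReal.ofReal (Real.exp (p.h * (∫ w, p.kd w * (Real.exp (g1 w) - 1)) +
        ∑ k ∈ Finset.range p.n, p.pring k j * (Real.exp (g2 k) - 1))) := by
  first | exact KDB.I.P7.step_exp | (apply KDB.I.P7.step_exp <;> assumption)

end KDB
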