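import Pool.Agent.Helper37.KDB.Extra
import Pool.Agent.Helper66.KDB.C1

/-! Project KDB, piece C1 (proved). -/

namespace KDB

alias ent_cost := KDB.I.C1.ent_cost

end KDB
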