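import Pool.Agent.Helper37.KDB.Extra
import Pool.Agent.Helper87.KDB.C3

/-! Project KDB, piece C3 (proved). -/

set_option autoImplicit false

namespace KDB

open MeasureTheory
open scoped ENNReal

variable (p : Par)

theorem tcL_cost (hp : p.Ok) (om : ℕ → Nz p.d) (i t' : ℕ) :
    ENNReal.ofReal (Real.exp (-(2 * p.d * Real.log p.ell + p.d * Real.log (16 * p.L)))) ≤
      p.cT 1 (p.tcL om i t') := by
  first | exact KDB.I.C3.tcL_cost | (apply KDB.I.C3.tcL_cost <;> assumption)

theorem tcS_cost (hp : p.Ok) (om : ℕ → Nz p.d) (i T : ℕ) :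
    ENNReal.ofReal (Real.exp (-(1 + 3 * p.d + 2 * p.d * Real.log p.CR +
      p.nring om i (T - p.tau i) (T + p.W i) * (1 + 2 * p.d)))) ≤
      p.cT 2 (p.tcS om i T) := by
  first | exact KDB.I.C3.tcS_cost | (apply KDB.I.C3.tcS_cost <;> assumption)

end KDB
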