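import Pool.Agent.Helper37.KDB.Extra
import Pool.Agent.Helper74.KDB.D17

/-! Project KDB, piece D17 (proved). -/

set_option autoImplicit false

namespace KDB

open MeasureTheory
open scoped ENNReal

variable (p : Par)

/-- properties of the candidates -/
theorem cand_spec (hp : p.Ok) (t i a : ℕ) (ht : MM * p.tau (i + 1) ≤ t) (ha : 1 ≤ a)
    (ha' : a ≤ 49) :
    p.cand t i a % p.tau (i + 1) = p.L / 2 * p.tau i ∧
      t - MM * p.tau (i + 1) + p.tau i ≤ p.cand t i a ∧
      p.cand t i a + p.W i ≤ t - MM * p.tau i ∧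
      p.cand t i a + p.tau (i + 1) = p.cand t i (a + 1) := by
  first | exact KDB.I.D17.cand_spec | (apply KDB.I.D17.cand_spec <;> assumption)

/-- the stages are ordered and not too long -/
theorem stage_spec (hp : p.Ok) (t : ℕ) (ht : t ≤ p.tau p.n) (c : ℕ → ℕ) (hc : ∀ i, c i ≤ 49)
    (i : ℕ) (hi : i < p.n) :
    p.Sx t c i ≤ p.Ex t c i ∧ p.Ex t c i ≤ p.Sx t c i + MM * p.L * p.tau i ∧
      p.Ex t c i ≤ t ∧ (t < MM * p.tau (i + 1) → p.Sx t c i = 0) ∧
      t - MM * p.tau (i + 1) ≤ p.Sx t c i := by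
  first | exact KDB.I.D17.stage_spec | (apply KDB.I.D17.stage_spec <;> assumption)

end KDB
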