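import Pool.Agent.Helper37.KDB.Extra
import Pool.Agent.Helper66.KDB.C4

/-! Project KDB, piece C4 (proved). -/

namespace KDB

alias mst_le := KDB.I.C4.mst_le

alias stage_sum_le := KDB.I.C4.stage_sum_le

alias stage_unique := KDB.I.C4.stage_unique

end KDB
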