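import Pool.Agent.Helper37.KDB.Extra
import Pool.Agent.Helper8.KDB.L2

/-! Project KDB, piece L2 (proved). -/

set_option autoImplicit false

namespace KDB

open MeasureTheory
open scoped ENNReal

variable (p : Par)

/-- the candidate windows of a level are disjoint and remembered -/
theorem cand_disj (hp : p.Ok) (t i a a' j : ℕ) (ht : MM * p.tau (i + 1) ≤ t)
    (ha : 1 ≤ a ∧ a ≤ 49) (ha' : 1 ≤ a' ∧ a' ≤ 49)
    (hj : j ∈ Finset.Ico (p.cand t i a - p.tau i) (p.cand t i a + p.W i))
    (hj' : j ∈ Finset.Ico (p.cand t i a' - p.tau i) (p.cand t i a' + p.W i)) :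
    a = a' ∧ j < t ∧ p.mst t j ≤ i := by
  first | exact KDB.I.L2.cand_disj | (apply KDB.I.L2.cand_disj <;> assumption)

/-- the canonical choice is compatible -/
theorem cho_compat (hp : p.Ok) (om : ℕ → Nz p.d) (t : ℕ) :
    (∀ i, p.cho om t i ≤ 49) ∧ p.Compat om t (p.cho om t) := by
  first | exact KDB.I.L2.cho_compat | (apply KDB.I.L2.cho_compat <;> assumption)

end KDB
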