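import Pool.Agent.Helper37.KDB.Extra
import Pool.Agent.Helper57.KDB.P11

/-! Project KDB, piece P11 (proved). -/

namespace KDB

alias ring_lower := KDB.I.P11.ring_lower

end KDB
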