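import Pool.Agent.Helper37.KDB.Extra
import Pool.Agent.Helper26.KDB.P8

/-! Project KDB, piece P8 (proved). -/

namespace KDB

alias chernoff := KDB.I.P8.chernoff

alias chernoff_sum := KDB.I.P8.chernoff_sum

end KDB
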