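import Pool.Agent.Helper37.KDB.Extra
import Pool.Agent.Helper67.KDB.P12

/-! Project KDB, piece P12 (proved). -/

namespace KDB

alias no_ring := KDB.I.P12.no_ring

end KDB
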