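import Pool.Agent.Helper37.KDB.Extra
import Pool.Agent.Helper27.KDB.C5

/-! Project KDB, piece C5 (proved). -/

set_option autoImplicit false

namespace KDB

open MeasureTheory
open scoped ENNReal

variable (p : Par)

/-- COST -/
theorem cost_le (hp : p.Ok) (om : ℕ → Nz p.d) (hv : ∀ j, p.Valid j (om j)) (t : ℕ)
    (ht : t ≤ p.tau p.n) (c : ℕ → ℕ) (hc : ∀ i, c i ≤ 49) (h1 : p.Compat om t c) :
    ENNReal.ofReal (Real.exp (-p.cost om t c)) ≤ p.cF t c (p.fcode om t c) := by
  first | exact KDB.I.C5.cost_le | (apply KDB.I.C5.cost_le <;> assumption)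

end KDB
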