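import Pool.Agent.Helper37.KDB.Extra
import Pool.Agent.Helper81.KDB.D10

/-! Project KDB, piece D10 (proved). -/

set_option autoImplicit false

namespace KDB

open MeasureTheory
open scoped ENNReal

variable (p : Par)

/-- integers with equal residues and close are equal -/
theorem eq_of_emd {d : ℕ} (N : ℕ) (a a' : Fin d → ℤ) (h : Par.emd N a = Par.emd N a')
    (h1 : ∀ i, |(a i : ℝ) - a' i| < N) : a = a' := by
  first | exact KDB.I.D10.eq_of_emd | (apply KDB.I.D10.eq_of_emd <;> assumption)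

/-- decoding of floors -/
theorem fl_close {d : ℕ} (N : ℕ) (c : ℝ) (hc : 0 < c) (x x' : V d)
    (h : Par.emd N (Par.fl c x) = Par.emd N (Par.fl c x')) (h1 : ‖x - x'‖ / c + 1 < N) :
    ‖x - x'‖ ≤ c := by
  first | exact KDB.I.D10.fl_close | (apply KDB.I.D10.fl_close <;> assumption)

theorem tcL_close (hp : p.Ok) (om om' : ℕ → Nz p.d) (i t' : ℕ)
    (hc : p.tcL om i t' = p.tcL om' i t')
    (h1 : ‖(p.run om t').2 - (p.run om' t').2‖ ≤ p.rho (i + 1))
    (h2 : ‖(p.run om t').1 - (p.run om' t').1‖ ≤ p.xi (i + 1)) :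
    ‖(p.run om t').2 - (p.run om' t').2‖ ≤ p.rho i ∧
      ‖(p.run om t').1 - (p.run om' t').1‖ ≤ p.xi i := by
  first | exact KDB.I.D10.tcL_close | (apply KDB.I.D10.tcL_close <;> assumption)

end KDB
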