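import Pool.Agent.Helper37.KDB.Extra
import Pool.Agent.Helper82.KDB.P4

/-! Project KDB, piece P4 (proved). -/

namespace KDB

alias rho_rpow := KDB.I.P4.rho_rpow

alias kick_tail := KDB.I.P4.kick_tail

alias kick_mom := KDB.I.P4.kick_mom

end KDB
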