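import Pool.Agent.Helper37.KDB.Extra
import Pool.Agent.Helper77.KDB.P5

/-! Project KDB, piece P5 (proved). -/

set_option autoImplicit false

namespace KDB

open MeasureTheory
open scoped ENNReal

variable (p : Par)

theorem kl_meas : Measurable p.kl := by
  first | exact KDB.I.P5.kl_meas | (apply KDB.I.P5.kl_meas <;> assumption)

/-- the level of a kick -/
theorem kl_spec (hp : p.Ok) (w : V p.d) (hw : ‖w‖ < p.rho p.n) :
    p.kl w ≤ p.n ∧ ‖w‖ < p.rho (p.kl w) ∧ ∀ k, p.kl w = k + 1 → p.rho k ≤ ‖w‖ := by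
  first | exact KDB.I.P5.kl_spec | (apply KDB.I.P5.kl_spec <;> assumption)

/-- kicks of level `≥ m`, weighted by a function of the level -/
theorem kick_lv (hp : p.Ok) (m : ℕ) (c : ℕ → ℝ) (hc0 : ∀ i ≤ m, c i = 0) (hc : ∀ i, 0 ≤ c i) :
    Integrable (fun w => p.kd w * c (p.kl w)) ∧
    ∫ w, p.kd w * c (p.kl w) ≤ ∑ k ∈ Finset.Ico m p.n,
      c (k + 1) * (p.lam * (2 ^ p.d * p.d * p.q) * ((p.L : ℝ) ^ k)⁻¹) := by
  first | exact KDB.I.P5.kick_lv | (apply KDB.I.P5.kick_lv <;> assumption)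

end KDB
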