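import Pool.Agent.Helper37.KDB.Extra
import Pool.Agent.Helper42.KDB.D13

/-! Project KDB, piece D13 (proved). -/

namespace KDB

alias entry_close := KDB.I.D13.entry_close

end KDB
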