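import Pool.Agent.Helper37.KDB.Extra
import Pool.Agent.Helper77.KDB.D14

/-! Project KDB, piece D14 (proved). -/

namespace KDB

alias end_close := KDB.I.D14.end_close

end KDB
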