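import Pool.Agent.Helper37.KDB.Extra
import Pool.Agent.Helper2.KDB.D7

/-! Project KDB, piece D7 (proved). -/

set_option autoImplicit false

namespace KDB

open MeasureTheory
open scoped ENNReal

variable (p : Par)

theorem cap_a (hp : p.Ok) (om : ℕ → Nz p.d) (hv : ∀ j, p.Valid j (om j)) (i T : ℕ)
    (hi : i < p.n) (hT : T % p.tau (i + 1) = p.L / 2 * p.tau i) (hT1 : p.tau i ≤ T)
    (hc : Clean p om i (T - p.tau i) T)
    (hpl : ∃ j ∈ Finset.Ico (T - p.tau i) (T - p.tau i + p.W i),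
      (om j).lab = i + 2 ∧ (om j).sb = true) :
    ∃ B : Fin p.d → ℤ, ‖(p.run om T).1 - p.xi (i + 1) • Par.toV B‖ ≤
      2 ^ p.nring om i (T - p.tau i) T * (2 + p.nse om i (T - p.tau i) T / p.rho i) *
        p.xi i := by
  first | exact KDB.I.D7.cap_a | (apply KDB.I.D7.cap_a <;> assumption)

end KDB
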