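import Pool.Agent.Helper37.KDB.Extra
import Pool.Agent.Helper87.KDB.D8

/-! Project KDB, piece D8 (proved). -/

set_option autoImplicit false

namespace KDB

open MeasureTheory
open scoped ENNReal

variable (p : Par)

theorem cap_b (hp : p.Ok) (om : ℕ → Nz p.d) (hv : ∀ j, p.Valid j (om j)) (i T : ℕ)
    (hi : i < p.n) (hT : T % p.tau (i + 1) = p.L / 2 * p.tau i)
    (hc : Clean p om i T (T + p.W i))
    (hpl : ∃ j ∈ Finset.Ico T (T + p.W i), (om j).lab = i + 2 ∧ (om j).sb = true) :
    ∃ A : Fin p.d → ℤ, ‖(p.run om (T + p.W i)).2 - p.rho (i + 1) • Par.toV A‖ ≤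
      2 ^ p.nring om i T (T + p.W i) * (2 + p.nse om i T (T + p.W i) / p.rho i) *
        p.rho i := by
  first | exact KDB.I.D8.cap_b | (apply KDB.I.D8.cap_b <;> assumption)

/-- drift of the position during the b-window -/
theorem cap_c (hp : p.Ok) (om : ℕ → Nz p.d) (hv : ∀ j, p.Valid j (om j)) (i T : ℕ)
    (hi : i < p.n) (hc : Clean p om i T (T + p.W i)) :
    ‖(p.run om (T + p.W i)).1 - (p.run om T).1 - (p.h * p.W i) • (p.run om (T + p.W i)).2‖ ≤
      (p.nring om i T (T + p.W i) * p.L + p.nse om i T (T + p.W i) / p.rho i) * p.xi i := by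
  first | exact KDB.I.D8.cap_c | (apply KDB.I.D8.cap_c <;> assumption)

end KDB
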