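import Pool.Agent.Helper37.KDB.Extra
import Pool.Agent.Helper64.KDB.D9

/-! Project KDB, piece D9 (proved). -/

namespace KDB

alias capture := KDB.I.D9.capture

end KDB
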