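import Pool.Agent.Helper37.KDB.Extra
import Pool.Agent.Helper53.KDB.D18

/-! Project KDB, piece D18 (proved). -/

set_option autoImplicit false

namespace KDB

open MeasureTheory
open scoped ENNReal

variable (p : Par)

/-- COMPARISON: two realisations with the same code end near each other -/
theorem fcode_close (hp : p.Ok) (om om' : ℕ → Nz p.d) (hv : ∀ j, p.Valid j (om j))
    (hv' : ∀ j, p.Valid j (om' j)) (t : ℕ) (ht : t ≤ p.tau p.n) (c : ℕ → ℕ)
    (hc : ∀ i, c i ≤ 49) (h1 : p.Compat om t c) (h2 : p.Compat om' t c)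
    (he : p.fcode om t c = p.fcode om' t c) :
    ‖(p.run om t).1 - (p.run om' t).1‖ ≤ 1 ∧ ‖(p.run om t).2 - (p.run om' t).2‖ ≤ 1 := by
  first | exact KDB.I.D18.fcode_close | (apply KDB.I.D18.fcode_close <;> assumption)

end KDB
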