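import Pool.Agent.Helper37.KDB.Extra
import Pool.Agent.Helper53.KDB.K1

/-! Project KDB, piece K1 (proved). -/

namespace KDB

alias kr_uw := KDB.I.K1.kr_uw

alias kr_gw := KDB.I.K1.kr_gw

alias kr_sw := KDB.I.K1.kr_sw

end KDB
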