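import Pool.Agent.Helper37.KDB.Extra
import Pool.Agent.Helper26.KDB.K2

/-! Project KDB, piece K2 (proved). -/

set_option autoImplicit false

namespace KDB

open MeasureTheory
open scoped ENNReal

variable (p : Par)

theorem kr_prod {α β : Type} [Countable α] [Countable β] (f : α → ℝ≥0∞) (g : α → β → ℝ≥0∞)
    (hf : ∑' a, f a ≤ 1) (hg : ∀ a, ∑' b, g a b ≤ 1) :
    ∑' x : α × β, f x.1 * g x.1 x.2 ≤ 1 := by
  first | exact KDB.I.K2.kr_prod | (apply KDB.I.K2.kr_prod <;> assumption)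

theorem kr_pi {ι α : Type} [Fintype ι] [Countable α] (f : ι → α → ℝ≥0∞)
    (hf : ∀ i, ∑' a, f i a ≤ 1) : ∑' F : ι → α, ∏ i, f i (F i) ≤ 1 := by
  first | exact KDB.I.K2.kr_pi | (apply KDB.I.K2.kr_pi <;> assumption)

end KDB
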