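import Pool.Agent.Helper37.KDB.Extra
import Pool.Agent.Helper45.KDB.K3

/-! Project KDB, piece K3 (proved). -/

namespace KDB

alias kr_cEnt := KDB.I.K3.kr_cEnt

alias kr_cList := KDB.I.K3.kr_cList

end KDB
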