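import Pool.Agent.Helper37.KDB.Extra
import Pool.Agent.Helper81.KDB.K4

/-! Project KDB, piece K4 (proved). -/

namespace KDB

alias kr_cB := KDB.I.K4.kr_cB

alias kr_cT := KDB.I.K4.kr_cT

alias kraft_cF := KDB.I.K4.kraft_cF

end KDB
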