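import Pool.Agent.Helper37.KDB.Extra
import Pool.Agent.Helper7.KDB.K5

/-! Project KDB, piece K5 (proved). -/

namespace KDB

alias kraft_count := KDB.I.K5.kraft_count

end KDB
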