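import Pool.Agent.Helper37.KDB.Extra
import Pool.Agent.Helper66.KDB.L1

/-! Project KDB, piece L1 (proved). -/

namespace KDB

alias no_mid_ring := KDB.I.L1.no_mid_ring

alias one_b_ring := KDB.I.L1.one_b_ring

end KDB
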