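import Pool.Agent.Helper37.KDB.Extra
import Pool.Agent.Helper85.KDB.L4

/-! Project KDB, piece L4 (proved). -/

namespace KDB

alias lost_le := KDB.I.L4.lost_le

end KDB
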