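import Pool.Agent.Helper37.KDB.Extra
import Pool.Agent.Helper51.KDB.P13

/-! Project KDB, piece P13 (proved). -/

namespace KDB

alias prob_Y := KDB.I.P13.prob_Y

end KDB
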