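import Pool.Agent.Helper37.KDB.Extra
import Pool.Agent.Helper52.KDB.P14

/-! Project KDB, piece P14 (proved). -/

namespace KDB

alias prob_nu := KDB.I.P14.prob_nu

end KDB
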