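import Pool.Agent.Helper37.KDB.Extra
import Pool.Agent.Helper27.KDB.P16

/-! Project KDB, piece P16 (proved). -/

set_option autoImplicit false

namespace KDB

open MeasureTheory
open scoped ENNReal

variable (p : Par)

theorem prob_fail (hp : p.Reg) (hH : p.Hok) (N t : ℕ) (ht : t ≤ N) (htn : t ≤ p.tau p.n) :
    p.pathLaw N {om | (p.n : ℝ) < p.failf (p.exte N om) t} ≤
      ENNReal.ofReal ((p.L : ℝ) ^ (-(7 / 5 : ℝ) * p.n)) := by
  first | exact KDB.I.P16.prob_fail | (apply KDB.I.P16.prob_fail <;> assumption)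

end KDB
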