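import Pool.Agent.Helper37.KDB.St.D1
import Pool.Agent.Helper37.KDB.St.D2
import Pool.Agent.Helper37.KDB.St.D3
import Pool.Agent.Helper37.KDB.St.D4
import Pool.Agent.Helper37.KDB.St.D5
import Pool.Agent.Helper37.KDB.St.D6
import Pool.Agent.Helper37.KDB.St.D7
import Pool.Agent.Helper37.KDB.St.D8
import Pool.Agent.Helper37.KDB.St.D9
import Pool.Agent.Helper37.KDB.St.D10
import Pool.Agent.Helper37.KDB.St.D11
import Pool.Agent.Helper37.KDB.St.D12
import Pool.Agent.Helper37.KDB.St.D13
import Pool.Agent.Helper37.KDB.St.D14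
import Pool.Agent.Helper37.KDB.St.D15
import Pool.Agent.Helper37.KDB.St.D16
import Pool.Agent.Helper37.KDB.St.D17
import Pool.Agent.Helper37.KDB.St.D18
import Pool.Agent.Helper37.KDB.St.K1
import Pool.Agent.Helper37.KDB.St.K2
import Pool.Agent.Helper37.KDB.St.K3
import Pool.Agent.Helper37.KDB.St.K4
import Pool.Agent.Helper37.KDB.St.K5
import Pool.Agent.Helper37.KDB.St.C1
import Pool.Agent.Helper37.KDB.St.C2
import Pool.Agent.Helper37.KDB.St.C3
import Pool.Agent.Helper37.KDB.St.C4
import Pool.Agent.Helper37.KDB.St.C5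
import Pool.Agent.Helper37.KDB.St.C6
import Pool.Agent.Helper37.KDB.St.C7
import Pool.Agent.Helper37.KDB.St.L1
import Pool.Agent.Helper37.KDB.St.L2
import Pool.Agent.Helper37.KDB.St.L3
import Pool.Agent.Helper37.KDB.St.L4
import Pool.Agent.Helper37.KDB.St.P1
import Pool.Agent.Helper37.KDB.St.P2
import Pool.Agent.Helper37.KDB.St.P3
import Pool.Agent.Helper37.KDB.St.P4
import Pool.Agent.Helper37.KDB.St.P5
import Pool.Agent.Helper37.KDB.St.P6
import Pool.Agent.Helper37.KDB.St.P7
import Pool.Agent.Helper37.KDB.St.P8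
import Pool.Agent.Helper37.KDB.St.P9
import Pool.Agent.Helper37.KDB.St.P10
import Pool.Agent.Helper37.KDB.St.P11
import Pool.Agent.Helper37.KDB.St.P12
import Pool.Agent.Helper37.KDB.St.P13
import Pool.Agent.Helper37.KDB.St.P14
import Pool.Agent.Helper37.KDB.St.P15
import Pool.Agent.Helper37.KDB.St.P16
import Pool.Agent.Helper37.KDB.St.P17
import Pool.Agent.Helper37.KDB.St.CH

/-! All pieces of the chain part. -/
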